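import Pool.Agent.H777R4.DM.Stmts

/-! Task TwoD of the project H777-DSH. -/

set_option autoImplicit false

namespace Pool.Agent.H988R3.DM

open Pool.Agent.H777R4.DM

attribute [local instance 100] LieRing.ofAssociativeRing

/-! ### words -/

theorem wordX_append (v v' : List ℕ) : wordX (v ++ v') = wordX v ++ wordX v' := by
  induction v with
  | nil => rfl
  | cons k v ih => simp [wordX, ih]

theorem count_wordX (v : List ℕ) : (wordX v).count 1 = v.length := by
  induction v with
  | nil => rfl
  | cons k v ih => simp [wordX, ih, List.count_replicate]

theorem exists_word (u : List (Fin 2)) :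
    ∃ (v : List ℕ) (k : ℕ), u = wordX v ++ List.replicate k 0 ∧ v.length = u.count 1 := by
  induction u with
  | nil => exact ⟨[], 0, rfl, rfl⟩
  | cons i u ih =>
    obtain ⟨v, k, h, hl⟩ := ih
    have hi : i = 0 ∨ i = 1 := by fin_cases i <;> simp
    rcases hi with rfl | rfl
    · cases v with
      | nil =>
        refine ⟨[], k + 1, by simp [h, wordX, List.replicate_succ], ?_⟩
        simpa using hl
      | cons a v =>
        refine ⟨(a + 1) :: v, k, by simp [h, wordX, List.replicate_succ], ?_⟩
        simpa using hl
    · exact ⟨0 :: v, k, by simp [h, wordX], by simp [hl]⟩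

theorem end_one (u : List (Fin 2)) :
    ∃ v : List ℕ, u ++ [1] = wordX v ∧ v.length = u.count 1 + 1 := by
  obtain ⟨v, k, h, hl⟩ := exists_word u
  refine ⟨v ++ [k], ?_, by simp [hl]⟩
  rw [wordX_append, h]
  simp [wordX]

theorem insert_split {α : Type} (w : List α) (a : α) : ∀ (j : ℕ), j ≤ w.length →
    ∃ w1 w2, w = w1 ++ w2 ∧ w1.length = j ∧ w.insertIdx j a = w1 ++ a :: w2 := by
  induction w with
  | nil =>
    intro j hj
    have : j = 0 := by simpa using hj
    subst this
    exact ⟨[], [], rfl, rfl, rfl⟩
  | cons b w ih =>
    intro j hj
    rcases j with _ | j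
    · exact ⟨[], b :: w, rfl, rfl, rfl⟩
    · obtain ⟨w1, w2, h1, h2, h3⟩ := ih j (by simpa using hj)
      refine ⟨b :: w1, w2, by simp [h1], by simp [h2], ?_⟩
      rw [List.insertIdx_succ_cons, h3]
      rfl

/-- inserting a zero strictly before the end of `wordX v` raises one of the letters -/
theorem insert_zero (v : List ℕ) : ∀ (w1 w2 : List (Fin 2)), wordX v = w1 ++ w2 → w2 ≠ [] →
    ∃ v' : List ℕ, w1 ++ 0 :: w2 = wordX v' ∧ v'.length = v.length ∧ ∀ a ∈ v, ∃ b ∈ v', a ≤ b := by
  induction v with
  | nil =>
    intro w1 w2 h h2
    simp [wordX] at h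
    exact absurd h.2 h2
  | cons k v ih =>
    intro w1 w2 h h2
    rw [wordX] at h
    rw [List.append_eq_append_iff] at h
    rcases h with ⟨as, h3, h4⟩ | ⟨cs, h3, h4⟩
    · -- w1 = 0^k ++ as, 1 :: wordX v = as ++ w2
      cases as with
      | nil =>
        simp at h3 h4
        refine ⟨(k + 1) :: v, ?_, by simp, ?_⟩
        · rw [h3, ← h4, wordX, List.replicate_succ']
          simp
        · intro a ha
          rcases List.mem_cons.1 ha with rfl | ha
          · exact ⟨a + 1, by simp, by omega⟩
          · exact ⟨a, by simp [ha], le_rfl⟩
      | cons i as =>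
        simp at h4
        obtain ⟨rfl, h4⟩ := h4
        obtain ⟨v', h5, h6, h7⟩ := ih as w2 h4 h2
        refine ⟨k :: v', ?_, by simp [h6], ?_⟩
        · rw [h3, wordX, ← h5]
          simp
        · intro a ha
          rcases List.mem_cons.1 ha with rfl | ha
          · exact ⟨a, by simp, le_rfl⟩
          · obtain ⟨b, hb, hab⟩ := h7 a ha
            exact ⟨b, by simp [hb], hab⟩
    · -- 0^k = w1 ++ cs, w2 = cs ++ 1 :: wordX v
      refine ⟨(k + 1) :: v, ?_, by simp, ?_⟩
      · have hw1 : w1 = List.replicate w1.length 0 := by
          rw [List.eq_replicate_iff]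
          refine ⟨rfl, fun b hb => ?_⟩
          have : b ∈ List.replicate k (0 : Fin 2) := by rw [h3]; simp [hb]
          exact List.eq_of_mem_replicate this
        have hcs : cs = List.replicate cs.length 0 := by
          rw [List.eq_replicate_iff]
          refine ⟨rfl, fun b hb => ?_⟩
          have : b ∈ List.replicate k (0 : Fin 2) := by rw [h3]; simp [hb]
          exact List.eq_of_mem_replicate this
        have hk : k = w1.length + cs.length := by
          have := congrArg List.length h3
          simpa using this
        rw [h4, wordX, hk, hw1, hcs]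
        simp only [List.length_replicate]
        rw [show w1.length + cs.length + 1 = w1.length + (1 + cs.length) by ring,
          List.replicate_add, List.replicate_add]
        simp
      · intro a ha
        rcases List.mem_cons.1 ha with rfl | ha
        · exact ⟨a + 1, by simp, by omega⟩
        · exact ⟨a, by simp [ha], le_rfl⟩

theorem no00 (k : ℕ) (hk : k ≤ 1) (v : List ℕ) (hv : ∀ a ∈ v, a ≤ 1) :
    ∀ s t : List (Fin 2), s ++ 0 :: 0 :: t ≠ wordX v ++ List.replicate k 0 := by
  induction v with
  | nil =>
    intro s t h
    have := congrArg List.length h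
    simp [wordX] at this
    omega
  | cons a v ih =>
    have ih' := ih (fun a ha => hv a (by simp [ha]))
    have ha : a = 0 ∨ a = 1 := by have := hv a (by simp); omega
    intro s t h
    rcases ha with rfl | rfl
    · simp only [wordX, List.replicate_zero, List.nil_append, List.cons_append] at h
      cases s with
      | nil => simp at h
      | cons i s =>
        simp only [List.cons_append, List.cons.injEq] at h
        exact ih' s t h.2
    · simp only [wordX, List.replicate_succ, List.replicate_zero, List.nil_append,
        List.cons_append] at h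
      rcases s with _ | ⟨i, _ | ⟨i', s⟩⟩
      · simp at h
      · simp at h
      · simp only [List.cons_append, List.cons.injEq] at h
        exact ih' s t h.2.2

theorem exists_zero : ∀ u : List (Fin 2), 1 ≤ u.count 0 →
    ∃ q t, u = List.replicate q 1 ++ 0 :: t := by
  intro u
  induction u with
  | nil => intro h; simp at h
  | cons i u ih =>
    intro h
    have hi : i = 0 ∨ i = 1 := by fin_cases i <;> simp
    rcases hi with rfl | rfl
    · exact ⟨0, u, rfl⟩
    · obtain ⟨q, t, h1⟩ := ih (by simpa using h)
      exact ⟨q + 1, t, by rw [h1, List.replicate_succ]; rfl⟩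

theorem exists_two_zeros : ∀ u : List (Fin 2), 2 ≤ u.count 0 →
    ∃ s q t, u = s ++ 0 :: (List.replicate q 1 ++ 0 :: t) := by
  intro u
  induction u with
  | nil => intro h; simp at h
  | cons i u ih =>
    intro h
    have hi : i = 0 ∨ i = 1 := by fin_cases i <;> simp
    rcases hi with rfl | rfl
    · obtain ⟨q, t, h1⟩ := exists_zero u (by simpa using h)
      exact ⟨[], q, t, by rw [h1]; rfl⟩
    · obtain ⟨s, q, t, h1⟩ := ih (by simpa using h)
      exact ⟨1 :: s, q, t, by rw [h1]; rfl⟩

theorem all_ones : ∀ u : List (Fin 2), u.count 0 = 0 → u = List.replicate (u.count 1) 1 := by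
  intro u
  induction u with
  | nil => intro _; rfl
  | cons i u ih =>
    intro h
    have hi : i = 0 ∨ i = 1 := by fin_cases i <;> simp
    rcases hi with rfl | rfl
    · simp at h
    · have := ih (by simpa using h)
      rw [List.count_cons_self, List.replicate_succ, ← this]

/-- sums with all terms `0` or `c` -/
theorem eq_zero_of_sum (s : Finset ℕ) (f : ℕ → ℚ) (c : ℚ) (h : ∀ j ∈ s, f j = 0 ∨ f j = c)
    (j0 : ℕ) (hj : j0 ∈ s) (hc : f j0 = c) (hs : ∑ j ∈ s, f j = 0) : c = 0 := by
  by_contra hne
  have h1 : ∑ j ∈ s, f j / c = 0 := by rw [← Finset.sum_div, hs, zero_div]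
  have h2 : ∀ j ∈ s, 0 ≤ f j / c := by
    intro j hjs
    rcases h j hjs with h | h
    · rw [h]; simp
    · rw [h, div_self hne]; norm_num
  have h3 := (Finset.sum_eq_zero_iff_of_nonneg h2).1 h1 j0 hj
  rw [hc, div_self hne] at h3
  norm_num at h3

/-- insertion into `a^p b a^m` -/
theorem sum_insert {α : Type} (g : List α → ℚ) (a b : α) (p m : ℕ) :
    ∑ j ∈ Finset.range ((List.replicate p a ++ b :: List.replicate m a).length + 1),
      g ((List.replicate p a ++ b :: List.replicate m a).insertIdx j a) =
    ((p : ℚ) + 1) * g (List.replicate (p + 1) a ++ b :: List.replicate m a) +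
      ((m : ℚ) + 1) * g (List.replicate p a ++ b :: List.replicate (m + 1) a) := by
  have hlen : (List.replicate p a ++ b :: List.replicate m a).length + 1 = (p + 1) + (m + 1) := by
    simp; ring
  rw [hlen, Finset.sum_range_add]
  have h1 : ∀ (p j : ℕ), j ≤ p → (List.replicate p a ++ b :: List.replicate m a).insertIdx j a =
      List.replicate (p + 1) a ++ b :: List.replicate m a := by
    intro p
    induction p with
    | zero => intro j hj; have : j = 0 := by omega
              subst this; rfl
    | succ p ih =>
      intro j hj
      rcases j with _ | j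
      · rfl
      · rw [List.replicate_succ, List.cons_append, List.insertIdx_succ_cons, ih j (by omega)]
        rfl
  have h3 : ∀ (m i : ℕ), i ≤ m → (List.replicate m a).insertIdx i a = List.replicate (m + 1) a := by
    intro m
    induction m with
    | zero => intro j hj; have : j = 0 := by omega
              subst this; rfl
    | succ m ih =>
      intro j hj
      rcases j with _ | j
      · rfl
      · rw [List.replicate_succ, List.insertIdx_succ_cons, ih j (by omega)]
        rfl
  have h2 : ∀ (p i : ℕ), i ≤ m → (List.replicate p a ++ b :: List.replicate m a).insertIdx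
      (p + 1 + i) a = List.replicate p a ++ b :: List.replicate (m + 1) a := by
    intro p
    induction p with
    | zero =>
      intro i hi
      rw [show 0 + 1 + i = i + 1 by ring]
      simp only [List.replicate_zero, List.nil_append]
      rw [List.insertIdx_succ_cons, h3 m i hi]
    | succ p ih =>
      intro i hi
      rw [show p + 1 + 1 + i = (p + 1 + i) + 1 by ring, List.replicate_succ, List.cons_append,
        List.insertIdx_succ_cons, ih i hi]
      rfl
  congr 1
  · rw [Finset.sum_congr rfl (fun j hj => by rw [h1 p j (by simpa [Nat.lt_succ_iff] using hj)])]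
    simp
  · rw [Finset.sum_congr rfl (fun j hj => by rw [h2 p j (by simpa [Nat.lt_succ_iff] using hj)])]
    simp

/-! ### the shuffle coproduct at a pair (letter, word) -/

theorem wd_cons {α : Type} (k : α) (v : List α) : wd (k :: v) = wd [k] * wd v := by
  unfold wd
  rw [← map_mul]
  rfl

theorem shΔ_wd_nil : shΔ (wd []) = 1 := by
  have : wd ([] : List ℕ) = 1 := rfl
  rw [this, map_one]

theorem inl_wd (k : ℕ) : inl (wd [k]) =
    MonoidAlgebra.single (FreeMonoid.ofList [k], (1 : FreeMonoid ℕ)) (1 : ℚ) := by
  unfold inl wd
  simp [MonoidAlgebra.of_apply]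

theorem inr_wd (k : ℕ) : inr (wd [k]) =
    MonoidAlgebra.single ((1 : FreeMonoid ℕ), FreeMonoid.ofList [k]) (1 : ℚ) := by
  unfold inr wd
  simp [MonoidAlgebra.of_apply]

theorem shΔ_letter (k : ℕ) : shΔ (wd [k]) = inl (wd [k]) + inr (wd [k]) := by
  unfold shΔ
  conv_lhs => unfold wd
  rw [MonoidAlgebra.lift_of]
  rfl

theorem shΔ_cons (k : ℕ) (v : List ℕ) :
    shΔ (wd (k :: v)) = (inl (wd [k]) + inr (wd [k])) * shΔ (wd v) := by
  rw [wd_cons, map_mul, shΔ_letter]

theorem ofList_cons_ne (k : ℕ) (d : FreeMonoid ℕ) : FreeMonoid.ofList [k] * d ≠ 1 := by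
  intro h
  have := congrArg FreeMonoid.toList h
  simp at this

theorem coeff_one_pair (v w : List ℕ) :
    (shΔ (wd v)).coeff ((1 : FreeMonoid ℕ), FreeMonoid.ofList w) = if w = v then 1 else 0 := by
  classical
  induction v generalizing w with
  | nil =>
    rw [shΔ_wd_nil]
    by_cases h : w = []
    · subst h
      rw [if_pos rfl]
      exact MonoidAlgebra.coeff_one_one
    · rw [if_neg h, MonoidAlgebra.one_def, MonoidAlgebra.coeff_single, Finsupp.single_apply,
        if_neg]
      intro h1
      apply h
      have h2 := congrArg Prod.snd h1
      have h3 := congrArg FreeMonoid.toList h2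
      simpa using h3.symm
  | cons k v ih =>
    rw [shΔ_cons, add_mul, inl_wd, inr_wd, MonoidAlgebra.coeff_add, Finsupp.add_apply]
    rw [MonoidAlgebra.coeff_single_mul_of_forall_mul_ne, zero_add]
    swap
    · intro d h
      exact ofList_cons_ne k d.1 (congrArg Prod.fst h)
    cases w with
    | nil =>
      rw [MonoidAlgebra.coeff_single_mul_of_forall_mul_ne]
      · simp
      · intro d h
        exact ofList_cons_ne k d.2 (congrArg Prod.snd h)
    | cons b w =>
      by_cases hkb : k = b
      · subst hkb
        rw [MonoidAlgebra.coeff_single_mul_eq_mul_coeff ((1 : FreeMonoid ℕ), FreeMonoid.ofList w),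
          ih w, one_mul]
        · simp
        · intro m' _
          constructor
          · intro h
            have h1 := congrArg Prod.fst h
            have h2 := congrArg (fun z => FreeMonoid.toList z.2) h
            simp at h1 h2
            ext1
            · exact h1
            · exact (by rw [← h2]; rfl : m'.2 = FreeMonoid.ofList w)
          · rintro rfl
            rfl
      · rw [MonoidAlgebra.coeff_single_mul_of_forall_mul_ne]
        · rw [if_neg]
          intro h
          exact hkb (by simpa using (List.cons.inj h).1.symm)
        · intro d h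
          have h2 := congrArg (fun z => FreeMonoid.toList z.2) h
          simp at h2
          exact hkb h2.1

theorem coeff_letter_pair (a : ℕ) (v w : List ℕ) :
    (shΔ (wd v)).coeff (FreeMonoid.ofList [a], FreeMonoid.ofList w) =
      ∑ j ∈ Finset.range (w.length + 1), if w.insertIdx j a = v then (1 : ℚ) else 0 := by
  classical
  induction v generalizing w with
  | nil =>
    rw [shΔ_wd_nil, MonoidAlgebra.one_def, MonoidAlgebra.coeff_single, Finsupp.single_apply,
      if_neg]
    · symm
      apply Finset.sum_eq_zero
      intro j hj
      rw [if_neg]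
      intro h
      have h1 := congrArg List.length h
      rw [List.length_insertIdx_of_le_length (by simpa [Nat.lt_succ_iff] using hj)] at h1
      simp at h1
    · intro h
      have h2 := congrArg (fun z => FreeMonoid.toList z.1) h
      simp at h2
  | cons k v ih =>
    rw [shΔ_cons, add_mul, inl_wd, inr_wd, MonoidAlgebra.coeff_add, Finsupp.add_apply,
      Finset.sum_range_succ', add_comm]
    congr 1
    · -- the part of `inr`
      cases w with
      | nil =>
        rw [MonoidAlgebra.coeff_single_mul_of_forall_mul_ne]
        · simp
        · intro d h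
          exact ofList_cons_ne k d.2 (congrArg Prod.snd h)
      | cons b w =>
        simp only [List.insertIdx_succ_cons, List.length_cons]
        by_cases hkb : k = b
        · subst hkb
          rw [MonoidAlgebra.coeff_single_mul_eq_mul_coeff
            (FreeMonoid.ofList [a], FreeMonoid.ofList w), ih w, one_mul]
          · apply Finset.sum_congr rfl
            intro j _
            simp
          · intro m' _
            constructor
            · intro h
              have h1 := congrArg Prod.fst h
              have h2 := congrArg (fun z => FreeMonoid.toList z.2) h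
              simp at h1 h2
              ext1
              · exact h1
              · exact (by rw [← h2]; rfl : m'.2 = FreeMonoid.ofList w)
            · rintro rfl
              rfl
        · rw [MonoidAlgebra.coeff_single_mul_of_forall_mul_ne]
          · symm
            apply Finset.sum_eq_zero
            intro j _
            apply if_neg
            intro h
            exact hkb (List.cons.inj h).1.symm
          · intro d h
            have h2 := congrArg (fun z => FreeMonoid.toList z.2) h
            simp at h2
            exact hkb h2.1
    · -- the part of `inl`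
      rw [List.insertIdx_zero]
      by_cases hka : k = a
      · subst hka
        rw [MonoidAlgebra.coeff_single_mul_eq_mul_coeff ((1 : FreeMonoid ℕ), FreeMonoid.ofList w),
          coeff_one_pair, one_mul]
        · simp
        · intro m' _
          constructor
          · intro h
            have h1 := congrArg (fun z => FreeMonoid.toList z.1) h
            have h2 := congrArg Prod.snd h
            simp at h1 h2
            ext1
            · exact h1
            · exact h2
          · rintro rfl
            rfl
      · rw [MonoidAlgebra.coeff_single_mul_of_forall_mul_ne]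
        · rw [if_neg]
          intro h
          exact hka (List.cons.inj h).1.symm
        · intro d h
          have h2 := congrArg (fun z => FreeMonoid.toList z.1) h
          simp at h2
          exact hka h2.1

theorem coeff_pair (P : AY) (a : ℕ) (w : List ℕ) :
    (shΔ P).coeff (FreeMonoid.ofList [a], FreeMonoid.ofList w) =
      ∑ j ∈ Finset.range (w.length + 1), co P (w.insertIdx j a) := by
  classical
  induction P using MonoidAlgebra.induction_linear with
  | zero => simp [co]
  | add f g hf hg =>
    rw [map_add, MonoidAlgebra.coeff_add, Finsupp.add_apply, hf, hg, ← Finset.sum_add_distrib]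
    rfl
  | single m r =>
    have h1 : (MonoidAlgebra.single m r : AY) = r • wd (FreeMonoid.toList m) := by
      simp [wd, MonoidAlgebra.of_apply]
    rw [h1, map_smul, MonoidAlgebra.coeff_smul, Finsupp.smul_apply, coeff_letter_pair,
      Finset.smul_sum]
    apply Finset.sum_congr rfl
    intro j _
    unfold co wd
    rw [MonoidAlgebra.coeff_smul, Finsupp.smul_apply, MonoidAlgebra.of_apply,
      MonoidAlgebra.coeff_single, Finsupp.single_apply]
    congr 1
    simp only [EmbeddingLike.apply_eq_iff_eq]
    by_cases h : w.insertIdx j a = FreeMonoid.toList m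
    · rw [if_pos h, if_pos h.symm]
    · rw [if_neg h, if_neg (fun h' => h h'.symm)]

theorem prim_pair (P : AY) (hP : Prim P) (a : ℕ) (w : List ℕ) (hw : w ≠ []) :
    ∑ j ∈ Finset.range (w.length + 1), co P (w.insertIdx j a) = 0 := by
  classical
  rw [← coeff_pair, hP, MonoidAlgebra.coeff_add, Finsupp.add_apply]
  have h1 : ∀ Q : AY, (inl Q).coeff (FreeMonoid.ofList [a], FreeMonoid.ofList w) = 0 := by
    intro Q
    induction Q using MonoidAlgebra.induction_linear with
    | zero => simp
    | add f g hf hg => rw [map_add, MonoidAlgebra.coeff_add, Finsupp.add_apply, hf, hg, add_zero]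
    | single m r =>
      unfold inl
      simp only [MonoidAlgebra.mapDomainAlgHom_apply, MonoidAlgebra.mapDomain_single,
        MonoidAlgebra.coeff_single]
      rw [Finsupp.single_apply]
      apply if_neg
      intro h
      have h2 := congrArg (fun z => FreeMonoid.toList z.2) h
      simp at h2
      exact hw h2
  have h2 : ∀ Q : AY, (inr Q).coeff (FreeMonoid.ofList [a], FreeMonoid.ofList w) = 0 := by
    intro Q
    induction Q using MonoidAlgebra.induction_linear with
    | zero => simp
    | add f g hf hg => rw [map_add, MonoidAlgebra.coeff_add, Finsupp.add_apply, hf, hg, add_zero]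
    | single m r =>
      unfold inr
      simp only [MonoidAlgebra.mapDomainAlgHom_apply, MonoidAlgebra.mapDomain_single,
        MonoidAlgebra.coeff_single]
      rw [Finsupp.single_apply]
      apply if_neg
      intro h
      have h2 := congrArg (fun z => FreeMonoid.toList z.1) h
      simp at h2
  rw [h1, h2, add_zero]

/-! ### the task -/

theorem taskTwoD : TaskTwoD := by
  intro hTA hTB hTC ψ hψ hc0 hc1 hlen r hr hdep hex F hF hP
  by_contra hcon
  have hH : ∀ (k : ℕ) (v : List ℕ), 2 ≤ k → v.length = r →
      co ψ (wordX v ++ List.replicate k 0) = 0 := by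
    intro k v hk hv
    by_contra h
    exact hcon ⟨k, v, hk, hv, h⟩
  -- no letter `≥ 2` in `F`
  have hF1 : ∀ v : List ℕ, v.length = r → co ψ (wordX v) ≠ 0 → ∀ a ∈ v, a ≤ 1 := by
    intro v hv hne a ha
    by_contra h2
    have hFv : co F v ≠ 0 := by rw [hF, if_pos hv]; exact hne
    obtain ⟨b, v', hb, hne'⟩ := hTA F hP ⟨v, hFv, a, ha, by omega⟩
    rw [hF] at hne'
    by_cases hl : (b :: v').length = r
    · rw [if_pos hl] at hne'
      have h3 := hTB ψ hψ (wordX (b :: v'))
      have h4 : (wordX (b :: v')).reverse =
          ((wordX v').reverse ++ [1]) ++ List.replicate b 0 := by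
        simp [wordX]
      obtain ⟨v'', h5, h6⟩ := end_one (wordX v').reverse
      rw [h4, h5] at h3
      have h7 : v''.length = r := by
        rw [h6, List.count_reverse, count_wordX, ← hl]
        simp
      rw [hH b v'' hb h7] at h3
      have h8 := h3.symm
      rw [mul_eq_zero] at h8
      rcases h8 with h8 | h8
      · exact absurd h8 (by simp)
      · exact hne' h8
    · rw [if_neg hl] at hne'
      exact hne' rfl
  have hZ : ∀ v : List ℕ, v.length = r → co ψ (wordX v ++ [0]) ≠ 0 → ∀ a ∈ v, a ≤ 1 := by
    intro v hv hne a ha
    have h1 := hTC ψ hψ 0 hc0 (wordX v)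
    rw [Finset.sum_range_succ, List.insertIdx_length_self] at h1
    have h2 : ∃ j ∈ Finset.range (wordX v).length, co ψ ((wordX v).insertIdx j 0) ≠ 0 := by
      by_contra h
      push Not at h
      rw [Finset.sum_eq_zero h, zero_add] at h1
      exact hne h1
    obtain ⟨j, hj, h3⟩ := h2
    have hj' := Finset.mem_range.1 hj
    obtain ⟨w1, w2, h4, h5, h6⟩ := insert_split (wordX v) 0 j hj'.le
    have hw2 : w2 ≠ [] := by
      rintro rfl
      rw [h4] at hj'
      simp at hj'
      omega
    obtain ⟨v', h7, h8, h9⟩ := insert_zero v w1 w2 h4 hw2
    rw [h6, h7] at h3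
    obtain ⟨b, hb, hab⟩ := h9 a ha
    exact hab.trans (hF1 v' (h8.trans hv) h3 b hb)
  have hZ00 : ∀ s t : List (Fin 2), (s ++ 0 :: 0 :: t).count 1 = r →
      co ψ (s ++ 0 :: 0 :: t) = 0 := by
    intro s t hst
    by_contra hne
    obtain ⟨v, k, h, hl⟩ := exists_word (s ++ 0 :: 0 :: t)
    rw [hst] at hl
    rw [h] at hne
    have hk : k ≤ 1 := by
      by_contra hk
      exact hne (hH k v (by omega) hl)
    have hv : ∀ a ∈ v, a ≤ 1 := by
      have hk' : k = 0 ∨ k = 1 := by omega
      rcases hk' with rfl | rfl
      · exact hF1 v hl (by simpa using hne)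
      · exact hZ v hl (by simpa using hne)
    exact no00 k hk v hv s t h
  have hB : ∀ (q : ℕ) (u t : List (Fin 2)),
      (u ++ 0 :: (List.replicate q 1 ++ 0 :: t)).count 1 = r →
      co ψ (u ++ 0 :: (List.replicate q 1 ++ 0 :: t)) = 0 := by
    intro q
    induction q with
    | zero => intro u t h; simpa using hZ00 u t (by simpa using h)
    | succ q ih =>
      intro u t h
      set w : List (Fin 2) := u ++ 0 :: (List.replicate q 1 ++ 0 :: t) with hw
      have hcw : w.count 1 + 1 = r := by
        rw [← h, hw]
        simp [List.count_replicate]
        ring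
      have h1 := hTC ψ hψ 1 hc1 w
      refine eq_zero_of_sum _ _ _ ?_ (u.length + 1) ?_ ?_ h1
      · intro j hj
        have hj' : j ≤ w.length := by simpa [Nat.lt_succ_iff] using hj
        obtain ⟨w1, w2, h4, h5, h6⟩ := insert_split w 1 j hj'
        rw [h6]
        have hcnt : (w1 ++ 1 :: w2).count 1 = r := by
          rw [← hcw, h4]
          simp
          ring
        rw [hw] at h4
        rw [List.append_eq_append_iff] at h4
        rcases h4 with ⟨as, h7, h8⟩ | ⟨cs, h7, h8⟩
        · -- w1 = u ++ as, 0 :: (1^q ++ 0 :: t) = as ++ w2
          cases as with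
          | nil =>
            left
            simp at h8 h7
            rw [← h8, show w1 ++ 1 :: 0 :: (List.replicate q 1 ++ 0 :: t) =
              (w1 ++ [1]) ++ 0 :: (List.replicate q 1 ++ 0 :: t) by simp]
            apply ih
            rw [← hcnt, ← h8]
            simp
          | cons i as =>
            simp only [List.cons_append, List.cons.injEq] at h8
            obtain ⟨rfl, h8⟩ := h8
            rw [List.append_eq_append_iff] at h8
            rcases h8 with ⟨bs, h9, h10⟩ | ⟨ds, h9, h10⟩
            · -- as = 1^q ++ bs, 0 :: t = bs ++ w2
              cases bs with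
              | nil =>
                right
                simp at h9 h10
                rw [h7, h9, ← h10]
                rw [List.replicate_succ']
                simp
              | cons i bs =>
                left
                simp only [List.cons_append, List.cons.injEq] at h10
                obtain ⟨rfl, h10⟩ := h10
                rw [h7, h9, show u ++ 0 :: (List.replicate q 1 ++ 0 :: bs) ++ 1 :: w2 =
                  u ++ 0 :: (List.replicate q 1 ++ 0 :: (bs ++ 1 :: w2)) by simp]
                apply ih
                rw [← hcnt, h7, h9]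
                simp
            · -- 1^q = as ++ ds, w2 = ds ++ 0 :: t
              right
              have has : as = List.replicate as.length 1 := by
                rw [List.eq_replicate_iff]
                refine ⟨rfl, fun b hb => ?_⟩
                have : b ∈ List.replicate q (1 : Fin 2) := by rw [h9]; simp [hb]
                exact List.eq_of_mem_replicate this
              have hds : ds = List.replicate ds.length 1 := by
                rw [List.eq_replicate_iff]
                refine ⟨rfl, fun b hb => ?_⟩
                have : b ∈ List.replicate q (1 : Fin 2) := by rw [h9]; simp [hb]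
                exact List.eq_of_mem_replicate this
              have hq : q = as.length + ds.length := by
                have := congrArg List.length h9
                simpa using this
              rw [h7, h10, hq, has, hds]
              simp only [List.length_replicate]
              rw [show as.length + ds.length + 1 = as.length + (1 + ds.length) by ring,
                List.replicate_add, List.replicate_add]
              simp
        · -- u = w1 ++ cs, w2 = cs ++ 0 :: ...
          left
          rw [h8, show w1 ++ 1 :: (cs ++ 0 :: (List.replicate q 1 ++ 0 :: t)) =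
            (w1 ++ 1 :: cs) ++ 0 :: (List.replicate q 1 ++ 0 :: t) by simp]
          apply ih
          rw [← hcnt, h8]
          simp
      · rw [Finset.mem_range, hw]
        simp
      · congr 1
        rw [hw]
        have : ∀ (u x : List (Fin 2)), (u ++ 0 :: x).insertIdx (u.length + 1) 1 =
            u ++ 0 :: 1 :: x := by
          intro u x
          induction u with
          | nil => rfl
          | cons i u ih => rw [List.cons_append, List.length_cons, List.insertIdx_succ_cons, ih]; rfl
        rw [this, List.replicate_succ]
        rfl
  -- words of depth `r` with at most one zero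
  have hone : ∀ u : List (Fin 2), u.count 1 = r → co ψ u ≠ 0 →
      ∃ p m, u = List.replicate p 1 ++ 0 :: List.replicate m 1 ∧ p + m = r := by
    intro u hu hne
    have h2 : u.count 0 ≤ 1 := by
      by_contra h
      obtain ⟨s, q, t, h3⟩ := exists_two_zeros u (by omega)
      rw [h3] at hne hu
      exact hne (hB q s t hu)
    have hlu := hlen u hne
    have hcl : u.length = u.count 0 + u.count 1 := by
      clear hu hne h2 hlu
      induction u with
      | nil => rfl
      | cons i u ih =>
        have hi : i = 0 ∨ i = 1 := by fin_cases i <;> simp
        rcases hi with rfl | rfl <;> simp [ih] <;> ring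
    have h3 : u.count 0 ≠ 0 := by
      intro h0
      have h4 := all_ones u h0
      rw [hu] at h4
      have hr3 : 3 ≤ r := by rw [hcl, h0, hu] at hlu; omega
      -- `1^r` has coefficient zero
      have h5 := hTC ψ hψ 1 hc1 (List.replicate (r - 1) 1)
      have h6 : ∀ (m i : ℕ), i ≤ m → (List.replicate m (1 : Fin 2)).insertIdx i 1 =
          List.replicate (m + 1) 1 := by
        intro m
        induction m with
        | zero => intro j hj; have : j = 0 := by omega
                  subst this; rfl
        | succ m ih =>
          intro j hj
          rcases j with _ | j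
          · rfl
          · rw [List.replicate_succ, List.insertIdx_succ_cons, ih j (by omega)]
            rfl
      rw [Finset.sum_congr rfl (fun j hj => by
        rw [h6 (r - 1) j (by simpa [Nat.lt_succ_iff] using hj)])] at h5
      rw [Finset.sum_const, Finset.card_range, List.length_replicate,
        show r - 1 + 1 = r by omega, nsmul_eq_mul, mul_eq_zero, ← h4] at h5
      rcases h5 with h5 | h5
      · have : r = 0 := by exact_mod_cast h5
        omega
      · exact hne h5
    obtain ⟨p, t, h4⟩ := exists_zero u (by omega)
    have h5 : t.count 0 = 0 := by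
      rw [h4] at h2
      simp [List.count_replicate] at h2
      simpa using h2
    refine ⟨p, t.count 1, ?_, ?_⟩
    · rw [← all_ones t h5]; exact h4
    · rw [← hu, h4]
      simp [List.count_replicate]
  obtain ⟨u0, hu0, hu0r⟩ := hex
  obtain ⟨p0, m0, hu0e, hpm0⟩ := hone u0 hu0r hu0
  have hr2 : 2 ≤ r := by
    have := hlen u0 hu0
    rw [hu0e] at this
    simp at this
    omega
  -- the coefficients `c p m`
  have hrec : ∀ p m : ℕ, p + m + 1 = r →
      ((p : ℚ) + 1) * co ψ (List.replicate (p + 1) 1 ++ 0 :: List.replicate m 1) +
      ((m : ℚ) + 1) * co ψ (List.replicate p 1 ++ 0 :: List.replicate (m + 1) 1) = 0 := by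
    intro p m _
    rw [← sum_insert (fun u => co ψ u)]
    exact hTC ψ hψ 1 hc1 _
  have hwz : ∀ p m : ℕ, wordX (List.replicate p 0 ++ 1 :: List.replicate m 0) =
      List.replicate p 1 ++ 0 :: List.replicate (m + 1) 1 := by
    have h1 : ∀ m : ℕ, wordX (List.replicate m 0) = List.replicate m 1 := by
      intro m
      induction m with
      | zero => rfl
      | succ m ih => rw [List.replicate_succ, wordX, ih]; rfl
    intro p m
    rw [wordX_append, h1, wordX, h1]
    rfl
  have hprim : ∀ p m : ℕ, p + m + 2 = r →
      ((p : ℚ) + 1) * co ψ (List.replicate (p + 1) 1 ++ 0 :: List.replicate (m + 1) 1) +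
      ((m : ℚ) + 1) * co ψ (List.replicate p 1 ++ 0 :: List.replicate (m + 2) 1) = 0 := by
    intro p m hpm
    have h1 := prim_pair F hP 0 (List.replicate p 0 ++ 1 :: List.replicate m 0) (by simp)
    rw [sum_insert (fun v => co F v)] at h1
    rw [hF, hF, if_pos (by simp; omega), if_pos (by simp; omega), hwz, hwz] at h1
    exact h1
  have hzero1 : ∀ p m : ℕ, p + m + 2 = r →
      co ψ (List.replicate p 1 ++ 0 :: List.replicate (m + 2) 1) = 0 := by
    intro p m hpm
    have h1 := hrec p (m + 1) (by omega)
    have h2 := hprim p m hpm
    push_cast at h1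
    linear_combination h1 - h2
  have hzero2 : co ψ (List.replicate (r - 1) 1 ++ 0 :: List.replicate 1 1) = 0 := by
    have h1 := hrec (r - 2) 1 (by omega)
    have h2 := hzero1 (r - 2) 0 (by omega)
    rw [show (1 : ℕ) + 1 = 0 + 2 by rfl, h2, mul_zero, add_zero, mul_eq_zero] at h1
    rcases h1 with h1 | h1
    · exfalso
      have : ((r - 2 : ℕ) : ℚ) + 1 > 0 := by positivity
      linarith
    · rw [show r - 2 + 1 = r - 1 by omega] at h1
      exact h1
  have hzero3 : co ψ (List.replicate r 1 ++ 0 :: List.replicate 0 1) = 0 := by
    have h1 := hrec (r - 1) 0 (by omega)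
    rw [zero_add, hzero2, mul_zero, add_zero, mul_eq_zero] at h1
    rcases h1 with h1 | h1
    · exfalso
      have : ((r - 1 : ℕ) : ℚ) + 1 > 0 := by positivity
      linarith
    · rw [show r - 1 + 1 = r by omega] at h1
      exact h1
  apply hu0
  rw [hu0e]
  rcases m0 with _ | _ | m0
  · rw [show p0 = r by omega]
    exact hzero3
  · rw [show p0 = r - 1 by omega]
    exact hzero2
  · exact hzero1 p0 m0 (by omega)

end Pool.Agent.H988R3.DM
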